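import Pool.Agent.Helper1.CK.Final

/-!
# Newtonian capacity of a compact convex set versus its surface area

For every compact convex set `K` in Euclidean 3-space whose outer Minkowski content `S` is positive,
the Newtonian capacity `1 / V_1(K)` is at least `π/4` times the conjectured minimal value
`(2/π) √(S/(2π))`, and the minimal Dirichlet energy of `K` is at least `√(2 π S)`.
-/

set_option autoImplicit false

open MeasureTheory Filter Topology
open scoped ENNReal

namespace Pool.Agent.Results.MP_68da2e_an.SurfaceAreaBound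

/-- The Newtonian energy of a measure on 3-space: the double integral of `1/|x-y|`
(equal to `⊤` on the diagonal). -/
noncomputable def energy (μ : Measure (EuclideanSpace ℝ (Fin 3))) : ℝ≥0∞ :=
  ∫⁻ x, ∫⁻ y, (edist x y)⁻¹ ∂μ ∂μ

/-- The minimal Newtonian energy `V_1(K)`: the infimum of the energy over all Borel probability
measures that give no mass to the complement of `K`. -/
noncomputable def minEnergy (K : Set (EuclideanSpace ℝ (Fin 3))) : ℝ≥0∞ :=
  ⨅ (μ : Measure (EuclideanSpace ℝ (Fin 3))) (_ : IsProbabilityMeasure μ) (_ : μ Kᶜ = 0), energy μ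

theorem result (K : Set (EuclideanSpace ℝ (Fin 3))) (S : ℝ) (hK : IsCompact K)
    (hconv : Convex ℝ K) (hS : 0 < S)
    (hcontent : Tendsto (fun ε : ℝ =>
        ((volume (Metric.cthickening ε K)).toReal - (volume K).toReal) / ε)
      (𝓝[>] (0 : ℝ)) (𝓝 S)) :
    ENNReal.ofReal ((Real.pi / 4) * ((2 / Real.pi) * √(S / (2 * Real.pi)))) ≤ (minEnergy K)⁻¹ ∧
    √(2 * Real.pi * S) ≤
      sInf {E : ℝ | ∃ u : EuclideanSpace ℝ (Fin 3) → ℝ,
          ContDiff ℝ 1 u ∧ HasCompactSupport u ∧
          (∀ x ∈ K, 1 ≤ u x) ∧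
          E = ∫ x, ‖fderiv ℝ u x‖ ^ 2} := by
  obtain ⟨h1, h2⟩ := Pool.Agent.Helper1.CK.final K hK hconv S hS hcontent
  refine ⟨?_, h2⟩
  have h3 : minEnergy K ≤ ENNReal.ofReal (√(8 * Real.pi / S)) := h1
  have h4 := ENNReal.inv_le_inv.2 h3
  refine le_trans (le_of_eq ?_) h4
  have hpi := Real.pi_pos
  rw [← ENNReal.ofReal_inv_of_pos (Real.sqrt_pos.2 (by positivity))]
  congr 1
  rw [← Real.sqrt_inv]
  have e1 : Real.pi / 4 * (2 / Real.pi * √(S / (2 * Real.pi))) = √(S / (2 * Real.pi)) / 2 := by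
    field_simp
    ring
  rw [e1]
  have e2 : (8 * Real.pi / S)⁻¹ = S / (2 * Real.pi) / 2 ^ 2 := by
    field_simp
    ring
  have h5 : (0 : ℝ) ≤ S / (2 * Real.pi) := by positivity
  rw [e2, Real.sqrt_div h5 (2 ^ 2), Real.sqrt_sq (by norm_num)]

end Pool.Agent.Results.MP_68da2e_an.SurfaceAreaBound
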